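import Pool.Agent.Lib.MP_a55e6f_al.Interfaces

/-!
# Module SP: sorted monomials span the subalgebra
-/

set_option autoImplicit false

attribute [local instance 100] LieRing.ofAssociativeRing

namespace Pool.Agent.A55.H14

section span
variable {k Q J : Type} [Field k] [Ring Q] [Algebra k Q]

/-- Span of the products of at most `n` of the `x j`. -/
def Pn (k : Type) {Q J : Type} [Field k] [Ring Q] [Algebra k Q] (x : J → Q) (n : ℕ) :
    Submodule k Q :=
  Submodule.span k {q | ∃ l : List J, l.length ≤ n ∧ q = (l.map x).prod}

theorem Pn_mono (x : J → Q) {m n : ℕ} (h : m ≤ n) : Pn k x m ≤ Pn k x n := by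
  apply Submodule.span_mono
  rintro q ⟨l, hl, rfl⟩
  exact ⟨l, hl.trans h, rfl⟩

theorem prod_mem_Pn (x : J → Q) (l : List J) {n : ℕ} (h : l.length ≤ n) :
    (l.map x).prod ∈ Pn k x n := Submodule.subset_span ⟨l, h, rfl⟩

theorem x_mul_Pn (x : J → Q) (a : J) (n : ℕ) {q : Q} (hq : q ∈ Pn k x n) :
    x a * q ∈ Pn k x (n + 1) := by
  unfold Pn at hq
  induction hq using Submodule.span_induction with
  | mem q h =>
    obtain ⟨l, hl, rfl⟩ := h
    have := prod_mem_Pn (k := k) x (a :: l) (n := n + 1) (by simpa using hl)
    simpa using this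
  | zero => rw [mul_zero]; exact Submodule.zero_mem _
  | add p q _ _ hp hq => rw [mul_add]; exact Submodule.add_mem _ hp hq
  | smul c q _ hq => rw [mul_smul_comm]; exact Submodule.smul_mem _ _ hq

theorem span_mul_prod (x : J → Q) (l : List J) {q : Q} (hq : q ∈ Submodule.span k (Set.range x)) :
    q * (l.map x).prod ∈ Pn k x (l.length + 1) := by
  induction hq using Submodule.span_induction with
  | mem q h =>
    obtain ⟨a, rfl⟩ := h
    have := prod_mem_Pn (k := k) x (a :: l) (n := l.length + 1) (by simp)
    simpa using this
  | zero => rw [zero_mul]; exact Submodule.zero_mem _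
  | add p q _ _ hp hq => rw [add_mul]; exact Submodule.add_mem _ hp hq
  | smul c q _ hq => rw [smul_mul_assoc]; exact Submodule.smul_mem _ _ hq

theorem perm_mem (x : J → Q)
    (h : ∀ i j, x i * x j - x j * x i ∈ Submodule.span k (Set.range x)) {l l' : List J}
    (hp : l.Perm l') : (l.map x).prod - (l'.map x).prod ∈ Pn k x (l.length - 1) := by
  induction hp with
  | nil => simp
  | @cons a l l' hp ih =>
    simp only [List.map_cons, List.prod_cons, List.length_cons]
    rw [← mul_sub]
    by_cases h0 : l.length = 0
    · have h1 : l = [] := List.length_eq_zero_iff.1 h0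
      subst h1
      have h2 : l' = [] := hp.nil_eq.symm
      subst h2
      simp
    · have := x_mul_Pn (k := k) x a _ ih
      have e : l.length - 1 + 1 = l.length + 1 - 1 := by omega
      rwa [e] at this
  | swap a b l =>
    simp only [List.map_cons, List.prod_cons, List.length_cons]
    have e : x b * (x a * (l.map x).prod) - x a * (x b * (l.map x).prod)
        = (x b * x a - x a * x b) * (l.map x).prod := by
      rw [sub_mul, mul_assoc, mul_assoc]
    rw [e]
    exact span_mul_prod x l (h b a)
  | @trans l1 l2 l3 h12 h23 ih1 ih2 =>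
    rw [← h12.length_eq] at ih2
    have := Submodule.add_mem _ ih1 ih2
    simpa using this

theorem prod_mem_span [LinearOrder J] (x : J → Q)
    (h : ∀ i j, x i * x j - x j * x i ∈ Submodule.span k (Set.range x)) (n : ℕ) :
    ∀ l : List J, l.length ≤ n →
      (l.map x).prod ∈ Submodule.span k (Set.range fun s : Multiset J => mono x s) := by
  induction n with
  | zero =>
    intro l hl
    have : l = [] := List.length_eq_zero_iff.1 (Nat.le_zero.1 hl)
    subst this
    apply Submodule.subset_span
    refine ⟨0, ?_⟩
    simp [mono]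
  | succ n ih =>
    intro l hl
    have hperm : l.Perm ((l : Multiset J).sort (· ≤ ·)) := by
      rw [← Multiset.coe_eq_coe, Multiset.sort_eq]
    have h1 := perm_mem x h hperm
    have h2 : Pn k x (l.length - 1)
        ≤ Submodule.span k (Set.range fun s : Multiset J => mono x s) := by
      unfold Pn
      rw [Submodule.span_le]
      rintro q ⟨l', hl', rfl⟩
      exact ih l' (by omega)
    have h3 : ((((l : Multiset J).sort (· ≤ ·)).map x).prod) ∈
        Submodule.span k (Set.range fun s : Multiset J => mono x s) :=
      Submodule.subset_span ⟨(l : Multiset J), rfl⟩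
    have := Submodule.add_mem _ (h2 h1) h3
    simpa using this

end span

theorem span : SpanStatement := by
  intro k Q J _ _ _ _ x h
  apply le_antisymm
  · rw [Submodule.span_le]
    rintro q ⟨s, rfl⟩
    change mono x s ∈ Algebra.adjoin k (Set.range x)
    unfold mono
    apply Subalgebra.list_prod_mem
    intro q hq
    obtain ⟨j, _, rfl⟩ := List.mem_map.1 hq
    exact Algebra.subset_adjoin ⟨j, rfl⟩
  · rw [Algebra.adjoin_eq_span, Submodule.span_le]
    intro q hq
    obtain ⟨l, hl, rfl⟩ := Submonoid.exists_list_of_mem_closure hq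
    have : ∃ l' : List J, l'.map x = l := by
      clear hq
      induction l with
      | nil => exact ⟨[], rfl⟩
      | cons a l ih =>
        obtain ⟨j, hj⟩ := hl a (by simp)
        obtain ⟨l', hl'⟩ := ih (fun y hy => hl y (List.mem_cons_of_mem _ hy))
        exact ⟨j :: l', by simp [hj, hl']⟩
    obtain ⟨l', rfl⟩ := this
    exact prod_mem_span x h _ l' le_rfl

end Pool.Agent.A55.H14
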